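import Pool.Agent.H948.HS.Stm

/-! MP_047546_pr, project HS, task HW1: the Hammersley–Welsh inequality from the recursion. -/

set_option autoImplicit false

namespace Pool.Agent.H415.HS

open MeasureTheory ProbabilityTheory Set Filter Metric
open scoped ENNReal NNReal Topology RealInnerProductSpace
open Pool.Agent.H948.HS

lemma lin_le_pow {κ : ℝ} (hκ : 1 < κ) (n : ℕ) :
    (n : ℝ) + 1 ≤ (1 + 1 / (κ - 1)) * κ ^ n := by
  have ht : 0 < κ - 1 := by linarith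
  have h1 : 1 + (n : ℝ) * (κ - 1) ≤ κ ^ n := by
    have := one_add_mul_le_pow (show (-2 : ℝ) ≤ κ - 1 by linarith) n
    rwa [add_sub_cancel] at this
  have h2 : (0 : ℝ) < 1 / (κ - 1) := by positivity
  have h3 : 1 / (κ - 1) * (κ - 1) = 1 := by field_simp
  calc (n : ℝ) + 1 ≤ (1 + 1 / (κ - 1)) * (1 + (n : ℝ) * (κ - 1)) := by
        have hn : (0 : ℝ) ≤ n := Nat.cast_nonneg n
        have : (1 + 1 / (κ - 1)) * (1 + (n : ℝ) * (κ - 1)) =
            1 + n * (κ - 1) + 1 / (κ - 1) + n * (1 / (κ - 1) * (κ - 1)) := by ring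
        rw [this, h3]
        have h4 : 0 ≤ (n : ℝ) * (κ - 1) := by positivity
        linarith
    _ ≤ _ := mul_le_mul_of_nonneg_left h1 (by positivity)

lemma Gs_zero (m : ℕ) (c s : ℝ) (n : ℕ) : Gs m c 0 s n = Saw m c n := by
  ext u
  constructor
  · intro h
    exact h.1
  · intro h
    exact ⟨h, fun r hr => absurd hr (Nat.not_lt_zero _)⟩

theorem s_hw1 (hM : S_LAM) (hb : S_BRL) (hr : S_HWREC) (hp : S_PACK) : S_HW1 := by
  intro m c ρ0 hc hc1 hρ0 hρ01 hB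
  obtain ⟨hl0, hl1, -, hlZ, -, -⟩ := hM m c hc hc1
  obtain ⟨hpc, hpc1, -, -, -, hW⟩ := hb m c hc hc1
  by_contra hlt
  rw [not_le] at hlt
  -- the factor `κ`
  have hL : 1 < lam m c / ρ0 := by rw [lt_div_iff₀ hρ0, one_mul]; exact hlt
  obtain ⟨κ, hκ1, hκL⟩ : ∃ κ : ℝ, 1 < κ ∧ κ ^ (m + 2) < lam m c / ρ0 := by
    refine ⟨(lam m c / ρ0) ^ ((1 : ℝ) / ((m + 3 : ℕ) : ℝ)), ?_, ?_⟩
    · exact Real.one_lt_rpow hL (by positivity)
    · have h1 : 1 < (lam m c / ρ0) ^ ((1 : ℝ) / ((m + 3 : ℕ) : ℝ)) :=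
        Real.one_lt_rpow hL (by positivity)
      have h2 : ((lam m c / ρ0) ^ ((1 : ℝ) / ((m + 3 : ℕ) : ℝ))) ^ (m + 3) = lam m c / ρ0 := by
        rw [← Real.rpow_natCast, ← Real.rpow_mul (by positivity), one_div,
          inv_mul_cancel₀ (by positivity), Real.rpow_one]
      calc ((lam m c / ρ0) ^ ((1 : ℝ) / ((m + 3 : ℕ) : ℝ))) ^ (m + 2)
          < ((lam m c / ρ0) ^ ((1 : ℝ) / ((m + 3 : ℕ) : ℝ))) ^ (m + 3) :=
            pow_lt_pow_right₀ h1 (by omega)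
        _ = _ := h2
  have hκ0 : 0 < κ := by linarith
  obtain ⟨ρ, hρ⟩ : ∃ ρ, ρ = ρ0 * κ := ⟨_, rfl⟩
  have hρpos : 0 < ρ := by rw [hρ]; positivity
  have hρ0ρ : ρ0 < ρ := by rw [hρ]; exact lt_mul_of_one_lt_right hρ0 hκ1
  have hμ : ρ * κ ^ (m + 1) < lam m c := by
    rw [lt_div_iff₀ hρ0] at hκL
    calc ρ * κ ^ (m + 1) = κ ^ (m + 2) * ρ0 := by rw [hρ]; ring
      _ < _ := hκL
  have hρ1 : ρ ≤ 1 := by
    have h1 : ρ ≤ ρ * κ ^ (m + 1) := le_mul_of_one_le_right hρpos.le (one_le_pow₀ hκ1.le)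
    linarith
  -- weak bridges
  have hA : (0 : ℝ) ≤ 1 / pc m c ^ 2 := by positivity
  have hWb : ∀ (f : E m) (n : ℕ), ‖f‖ = 1 →
      (Pm m).real (Wb m c f n) ≤ 1 / pc m c ^ 2 * ρ0 ^ n := by
    intro f n hf
    have h1 := hW f n hf
    have h2 := hB (n + 2) (by omega)
    have h3 : ρ0 ^ (n + 2) ≤ ρ0 ^ n := pow_le_pow_of_le_one hρ0.le hρ01 (by omega)
    rw [one_div, inv_mul_eq_div, le_div_iff₀ (by positivity)]
    linarith
  -- the scale `s`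
  have hq0 : 0 ≤ ρ0 / ρ := by positivity
  have hq1 : ρ0 / ρ < 1 := by rw [div_lt_one hρpos]; exact hρ0ρ
  obtain ⟨T, hT⟩ : ∃ T : ℕ, (ρ0 / ρ) ^ T < (1 - ρ0 / ρ) / (2 * (1 / pc m c ^ 2) + 1) :=
    exists_pow_lt_of_lt_one (by
      apply div_pos (by linarith)
      linarith) hq1
  have hT1 : (1 / pc m c ^ 2) * (ρ0 / ρ) ^ (T + 1) / (1 - ρ0 / ρ) ≤ 1 / 2 := by
    have h1 : (ρ0 / ρ) ^ (T + 1) ≤ (ρ0 / ρ) ^ T := pow_le_pow_of_le_one hq0 hq1.le (by omega)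
    rw [lt_div_iff₀ (by linarith)] at hT
    rw [div_le_iff₀ (by linarith)]
    have h2 : 0 ≤ (ρ0 / ρ) ^ T := by positivity
    have h3 := mul_le_mul_of_nonneg_left h1 hA
    linarith
  have hceil : ⌈((T + 1 : ℕ) : ℝ)⌉₊ = T + 1 := Nat.ceil_natCast _
  have hs : (0 : ℝ) < ((T + 1 : ℕ) : ℝ) := by positivity
  -- the main induction
  have main : ∀ b : ℕ, b ≤ m + 1 → ∃ C : ℝ, 0 ≤ C ∧ ∀ n,
      (Pm m).real (Gs m c (m + 1 - b) ((T + 1 : ℕ) : ℝ) n) ≤ C * (ρ * κ ^ b) ^ n := by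
    intro b
    induction b with
    | zero =>
      intro _
      obtain ⟨N0, hN0⟩ := hp m c ((T + 1 : ℕ) : ℝ) hc hs
      refine ⟨(ρ ^ N0)⁻¹, by positivity, fun n => ?_⟩
      rw [Nat.sub_zero, pow_zero, mul_one]
      by_cases hn : N0 ≤ n
      · rw [hN0 n hn, measureReal_empty]
        positivity
      · have h1 : ρ ^ N0 ≤ ρ ^ n := pow_le_pow_of_le_one hρpos.le hρ1 (by omega)
        calc (Pm m).real (Gs m c (m + 1) ((T + 1 : ℕ) : ℝ) n) ≤ 1 := measureReal_le_one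
          _ = (ρ ^ N0)⁻¹ * ρ ^ N0 := (inv_mul_cancel₀ (by positivity)).symm
          _ ≤ _ := mul_le_mul_of_nonneg_left h1 (by positivity)
    | succ b ih =>
      intro hb'
      obtain ⟨C, hC, hCn⟩ := ih (by omega)
      have hκb : 1 ≤ κ ^ b := one_le_pow₀ hκ1.le
      have hρb : ρ ≤ ρ * κ ^ b := le_mul_of_one_le_right hρpos.le hκb
      have hρb0 : 0 < ρ * κ ^ b := by positivity
      have hqb : ρ0 / (ρ * κ ^ b) ≤ ρ0 / ρ := div_le_div_of_nonneg_left hρ0.le hρpos hρb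
      have hqb0 : 0 ≤ ρ0 / (ρ * κ ^ b) := by positivity
      have hcond : (1 / pc m c ^ 2) * (ρ0 / (ρ * κ ^ b)) ^ ⌈((T + 1 : ℕ) : ℝ)⌉₊ /
          (1 - ρ0 / (ρ * κ ^ b)) ≤ 1 / 2 := by
        rw [hceil]
        refine le_trans ?_ hT1
        apply div_le_div₀
        · positivity
        · exact mul_le_mul_of_nonneg_left (pow_le_pow_left₀ hqb0 hqb _) hA
        · linarith
        · linarith
      have e1 : m + 1 - b = (m + 1 - (b + 1)) + 1 := by omega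
      rw [e1] at hCn
      have h1 := hr m c (m + 1 - (b + 1)) ((T + 1 : ℕ) : ℝ) ρ0 (ρ * κ ^ b) (1 / pc m c ^ 2) C hc
        (by omega) hs hρ0 (by linarith) hA hC hWb hcond hCn
      refine ⟨(1 + 1 / (κ - 1)) * (2 * C) ^ 2, ?_, fun n => ?_⟩
      · have : 0 < κ - 1 := by linarith
        positivity
      · calc (Pm m).real (Gs m c (m + 1 - (b + 1)) ((T + 1 : ℕ) : ℝ) n)
            ≤ ((n : ℝ) + 1) * (2 * C) ^ 2 * (ρ * κ ^ b) ^ n := h1 n
          _ ≤ ((1 + 1 / (κ - 1)) * κ ^ n) * (2 * C) ^ 2 * (ρ * κ ^ b) ^ n := by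
              have := lin_le_pow hκ1 n
              gcongr
          _ = _ := by
              have e2 : (ρ * κ ^ (b + 1)) ^ n = (ρ * κ ^ b) ^ n * κ ^ n := by
                rw [← mul_pow]; ring
              rw [e2]
              ring
  obtain ⟨C, hC, hCn⟩ := main (m + 1) le_rfl
  rw [Nat.sub_self] at hCn
  have hμ0 : 0 < ρ * κ ^ (m + 1) := by positivity
  obtain ⟨n, hn⟩ := pow_unbounded_of_one_lt C
    (show 1 < lam m c / (ρ * κ ^ (m + 1)) by rw [lt_div_iff₀ hμ0, one_mul]; exact hμ)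
  rw [div_pow, lt_div_iff₀ (by positivity)] at hn
  have h1 := hCn n
  rw [Gs_zero] at h1
  have h2 := hlZ n
  unfold Z at h2
  linarith

end Pool.Agent.H415.HS
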